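import Mathlib
import Pool.Agent.R285.JsrDim

/-!
# Parameters with irrational optimal ratio: Hausdorff dimension zero
-/

set_option autoImplicit false

open Matrix Real Filter Topology MeasureTheory
open R984.Ratio

namespace Pool.Agent.Results.MP_95d855_an.DimensionZero

open Pool.Agent.R285.Jsr

/-- The set of parameters with irrational unique optimal 1-ratio. -/
def E : Set ℝ := {α | α ∈ Set.Icc (0 : ℝ) 1 ∧ ∃ γ, Irrational γ ∧ IsOptimalRatio α γ}

/-- The part of `E` with a given growth constant. -/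
def F (c : ℝ) : Set ℝ :=
  {a | ∃ t ≤ 0, a = exp t ∧ ∃ (γ : ℝ) (x : ℕ → Bool), Irrational γ ∧
    Tendsto (fun n : ℕ => W t (pre x n) / n) atTop (𝓝 (P t)) ∧
    Tendsto (fun n : ℕ => c1 (pre x n) / n) atTop (𝓝 γ) ∧ ∃ p q s r, At γ 3 c p q s r}

theorem F_cover (c : ℝ) (N : ℕ) : F c ⊆ ⋃ τ, CovN c N τ := by
  rintro a ⟨t, ht, rfl, γ, x, hγ, hx, hr, p0, q0, s0, r0, hat⟩
  obtain ⟨p, q, s, r, h, hN⟩ := hat.far hγ N
  have key : ∀ p q s r, At γ 3 c p q s r → ln p * c1 q - ln q * c1 p = 1 →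
      (N : ℝ) ≤ ln p + ln q → exp t ∈ ⋃ τ, CovN c N τ := by
    intro p q s r h hdet hN
    rw [Set.mem_iUnion]
    refine ⟨(p.length, p.count true, q.length, q.count true), ?_, ?_⟩
    · exact ⟨t, ht, rfl, p, q, h.reach, h.cp, h.cq, rfl, rfl, rfl, rfl, localise x hx hr h hdet⟩
    · have : (N : ℝ) ≤ ((p.length + q.length : ℕ) : ℝ) := by
        push_cast
        exact hN
      exact_mod_cast this
  rcases h.reach.det with hd | hd
  · exact key p q s r h (by rw [ln, ln, c1, c1]; exact_mod_cast hd) hN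
  · exact key q p r s h.swap (by
      rw [ln, ln, c1, c1]
      have : (q.length : ℤ) * p.count true - p.length * q.count true = 1 := by linarith
      exact_mod_cast this) (by linarith)

theorem dim_F {c : ℝ} (hc : 0 < c) : dimH (F c) = 0 := dim_zero hc (F c) (F_cover c)

theorem E_sub : E ⊆ ⋃ j : ℕ, F (1 / ((j : ℝ) + 1)) := by
  rintro a ⟨⟨ha0, ha1⟩, γ, hγ, hopt⟩
  -- `a > 0`
  have hapos : 0 < a := by
    rcases ha0.lt_or_eq with h | h
    · exact h
    · exfalso
      rw [← h] at hopt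
      have h1 := hopt _ extremal_zero
      have h2 : ratio (fun _ => false) = fun _ => 0 := by
        funext n
        simp [ratio]
      rw [h2] at h1
      have h3 := tendsto_nhds_unique h1 tendsto_const_nhds
      rw [h3] at hγ
      exact hγ ⟨0, by simp⟩
  obtain ⟨t, rfl⟩ : ∃ t, a = exp t := ⟨log a, (exp_log hapos).symm⟩
  have ht : t ≤ 0 := by simpa using ha1
  obtain ⟨x, hxw⟩ := exists_weaklyExtremal t
  have hrr := hopt x hxw
  have hr : Tendsto (fun n : ℕ => c1 (pre x n) / n) atTop (𝓝 γ) :=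
    hrr.congr (fun n => ratio_eq x n)
  have hx := (extremal_iff t x).mp hxw
  have hslope := slope_le x hx hr
  -- `0 < γ < 1`
  have hg0 : 0 ≤ γ := ge_of_tendsto' hr fun n => div_nonneg (c1_nonneg _) (Nat.cast_nonneg n)
  have hg1 : γ ≤ 1 := by
    apply le_of_tendsto' hr
    intro n
    apply div_le_one_of_le₀ _ (Nat.cast_nonneg n)
    have := c1_le_ln (pre x n)
    rwa [ln_pre] at this
  have hg0' : 0 < γ := lt_of_le_of_ne hg0 (fun e => hγ ⟨0, by simpa using e⟩)
  have hg1' : γ < 1 := lt_of_le_of_ne hg1 (fun e => hγ ⟨1, by simp [e]⟩)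
  -- `γ < 1/2`
  have hhalf : γ < 1 / 2 := by
    by_contra hcon
    push Not at hcon
    have hne : γ ≠ 1 / 2 := fun e => hγ ⟨1 / 2, by rw [e]; norm_num⟩
    have hgt : 1 / 2 < γ := lt_of_le_of_ne hcon hne.symm
    rcases ht.lt_or_eq with h | h
    · have h1 := hslope (-t)
      have h2 := P_symm t
      nlinarith
    · subst h
      have hmin : ∀ t', P 0 + (1 - γ) * (t' - 0) ≤ P t' := by
        intro t'
        have h1 := hslope (-t')
        have h2 := P_symm t'
        nlinarith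
      have h3 := ratio_tendsto (by linarith) (by linarith) hmin x hx
      have h4 := tendsto_nhds_unique hr h3
      exact hne (by linarith)
  obtain ⟨c, hc, p, q, s, r, hat⟩ := at_start hγ hg0' hhalf
  obtain ⟨j, hj⟩ := exists_nat_one_div_lt hc
  rw [Set.mem_iUnion]
  refine ⟨j, t, ht, rfl, γ, x, hγ, hx, hr, p, q, s, r, hat.reach, hat.hs, hat.hr, hat.h1, hat.h2,
    hat.hp, hat.hq, ?_, ?_⟩
  · have := hat.reach.len_pos.1
    exact (mul_le_mul_of_nonneg_right hj.le (by linarith)).trans hat.cp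
  · have := hat.reach.len_pos.2
    exact (mul_le_mul_of_nonneg_right hj.le (by linarith)).trans hat.cq

theorem dim_E : dimH E = 0 := by
  apply le_antisymm _ bot_le
  calc dimH E ≤ dimH (⋃ j : ℕ, F (1 / ((j : ℝ) + 1))) := dimH_mono E_sub
    _ = ⨆ j : ℕ, dimH (F (1 / ((j : ℝ) + 1))) := dimH_iUnion _
    _ ≤ 0 := by
        apply iSup_le
        intro j
        rw [dim_F (by positivity)]

theorem null_of_dim {S : Set ℝ} (h : dimH S = 0) : volume S = 0 := by
  rw [← hausdorffMeasure_real]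
  have h1 : dimH S < ((1 : NNReal) : ENNReal) := by rw [h]; simp
  have h2 := hausdorffMeasure_of_dimH_lt h1
  simpa using h2

/-- **Q1 and Q2 are true.** The set `E` of the parameters `α ∈ [0,1]` whose unique optimal 1-ratio
is irrational has Hausdorff dimension zero and Lebesgue measure zero; in particular, whenever
`r : ℝ → ℝ` assigns to every `α ∈ [0,1]` the unique optimal 1-ratio of the family, the set
`{α ∈ [0,1] : r α ∉ ℚ}` has Hausdorff dimension zero and Lebesgue measure zero. -/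
theorem result : (dimH E = 0 ∧ volume E = 0) ∧
    ∀ r : ℝ → ℝ, (∀ α ∈ Set.Icc (0 : ℝ) 1, IsOptimalRatio α (r α)) →
      dimH {α | α ∈ Set.Icc (0 : ℝ) 1 ∧ Irrational (r α)} = 0 ∧
      volume {α | α ∈ Set.Icc (0 : ℝ) 1 ∧ Irrational (r α)} = 0 := by
  refine ⟨⟨dim_E, null_of_dim dim_E⟩, fun r hr => ?_⟩
  have hsub : {α | α ∈ Set.Icc (0 : ℝ) 1 ∧ Irrational (r α)} ⊆ E := by
    rintro α ⟨h1, h2⟩
    exact ⟨h1, r α, h2, hr α h1⟩
  have h3 : dimH {α | α ∈ Set.Icc (0 : ℝ) 1 ∧ Irrational (r α)} = 0 :=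
    le_antisymm ((dimH_mono hsub).trans dim_E.le) bot_le
  exact ⟨h3, null_of_dim h3⟩

end Pool.Agent.Results.MP_95d855_an.DimensionZero
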